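import Pool.Agent.Lib.MP_ba1bba_al.LG.Spec
import Pool.Agent.Lib.MP_ba1bba_al.LC.Main

section
/-!
# MP_ba1bba_al, LG: FLB, the bound for the pairing of the whole series with `L`
-/
open scoped ENNReal

namespace Pool.Agent.Lib.MPba1bba.LG

open Pool.Agent.Lib.MPba1bba Pool.Agent.Lib.MPba1bba.AS Pool.Agent.Lib.MPba1bba.LR
  Pool.Agent.Lib.MPba1bba.LC Vec

theorem specFLB (hEVA : SpecEVA) (hEVL : SpecEVL) (hPSR : SpecPSR) (hEQZ : SpecEQZ)
    (hEQT : SpecEQT) (hFTW : SpecFTW) (hPRM : SpecPRM) (hGNB : SpecGNB) : SpecFLB := by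
  have _ := hFTW
  intro p m Q E H V U hD z e hz he hE hM
  have hp := hD.hp
  obtain ⟨⟨nn1, -, ev1⟩, nnop, evop, -, -, -⟩ := hEVA
  obtain ⟨-, -, -, -, -, -, -, -, -, -, evl11⟩ := hEVL p m
  obtain ⟨⟨-, nnQ, nnE, nnH, -, -, -, -, -, -⟩, ⟨-, -, bsE, -, -, -, -⟩, -, -, -⟩ :=
    hPSR p m Q E H V U hD
  obtain ⟨-, -, eqz3, -, -, -, -⟩ := hEQZ p m Q E H V U hD z
  obtain ⟨-, -, -, eqt4, -, -, -⟩ := hEQT p m Q E H V U hD z
  obtain ⟨-, prm2, prm3, -⟩ := hPRM p z hp hz.le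
  have hG := hGNB p m Q E H V U hD z e hz he hE hM
  set γ : ℝ≥0∞ := (1 + e) / (1 - z * MM p z e) with hγ
  -- nonnegativity
  have nn1E : Nn (1 + E) := (nnop 1 E nn1 nnE).1
  have nnG : Nn (1 + E + H) := (nnop _ H nn1E nnH).1
  have nnHH : Nn (H + H) := (nnop H H nnH nnH).1
  have nnGG : Nn ((1 + E + H) * (1 + E + H)) := (nnop _ _ nnG nnG).2.1
  have nnQGG : Nn (Q * ((1 + E + H) * (1 + E + H))) := (nnop _ _ nnQ nnGG).2.1
  have nnA : Nn (1 + E + (H + H)) := (nnop _ _ nn1E nnHH).1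
  -- the value of the whole series
  have hF : 1 + E + 2 * H + Q * (1 + E + H) ^ 2 =
      (1 + E + (H + H)) + Q * ((1 + E + H) * (1 + E + H)) := by ring
  have hevF : ev z (1 + E + 2 * H + Q * (1 + E + H) ^ 2) =
      ev z (1 + E + (H + H)) +
        ev z Q * (ev z (1 + E + H) * ev z (1 + E + H)) := by
    rw [hF, (evop z _ _ nnA nnQGG).1, (evop z _ _ nnQ nnGG).2.1, (evop z _ _ nnG nnG).2.1]
  have hev1 : ev z (1 + E + (H + H)) = 1 + ev z E + (ev z H + ev z H) := by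
    rw [(evop z _ _ nn1E nnHH).1, (evop z _ _ nn1 nnE).1, (evop z _ _ nnH nnH).1, (ev1 z 0).1]
  have hevG : ev z (1 + E + H) = 1 + ev z E + ev z H := by
    rw [(evop z _ _ nn1E nnH).1, (evop z _ _ nn1 nnE).1, (ev1 z 0).1]
  set G : Vec := ev z (1 + E + H) with hGdef
  have hle : ev z (1 + E + (H + H)) ≤ G + G := by
    rw [hev1, hevG]
    intro s
    simp only [add_co]
    calc (1 : Vec).co s + (ev z E).co s + ((ev z H).co s + (ev z H).co s)
        ≤ ((1 : Vec).co s + (ev z E).co s + ((ev z H).co s + (ev z H).co s)) +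
            ((1 : Vec).co s + (ev z E).co s) := le_self_add
      _ = _ := by ring
  -- the pairings
  have hGL : pr G (LF p z) ≤ γ * LF p z 0 := by
    calc pr G (LF p z) = pr (G * 1) (LF p z) := by rw [mul_one]
      _ ≤ pr G (NF p z) * pr 1 (LF p z) := prm2 G 1
      _ ≤ γ * LF p z 0 := by
          rw [pr_one]
          exact mul_le_mul' hG le_rfl
  have hQR : ev z Q ≤ ev z (serR Q E) := by
    rw [eqz3, mul_add, mul_one]
    intro s
    simp only [add_co]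
    calc (ev z Q).co s ≤ (ev z Q).co s + ((1 : Vec).co s + (ev z Q * ev z E).co s) := le_self_add
      _ = _ := by ring
  have hRL : pr (ev z (serR Q E)) (LF p z) ≤ MM p z e := by
    rw [eqt4]
    exact prm3 (ev z E) e (evl11 z E bsE).1 hE
  have hQL : pr (ev z Q) (LF p z) ≤ MM p z e := (pr_mono hQR fun _ => le_rfl).trans hRL
  have hGGQ : pr (ev z Q * (G * G)) (LF p z) ≤ γ ^ 2 * MM p z e := by
    calc pr (ev z Q * (G * G)) (LF p z) = pr (G * (G * ev z Q)) (LF p z) := by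
          rw [mul_comm, mul_assoc]
      _ ≤ pr G (NF p z) * pr (G * ev z Q) (LF p z) := prm2 _ _
      _ ≤ γ * (pr G (NF p z) * pr (ev z Q) (LF p z)) := mul_le_mul' hG (prm2 _ _)
      _ ≤ γ * (γ * MM p z e) := mul_le_mul' le_rfl (mul_le_mul' hG hQL)
      _ = γ ^ 2 * MM p z e := by ring
  rw [hevF, pr_add]
  refine add_le_add ?_ hGGQ
  calc pr (ev z (1 + E + (H + H))) (LF p z) ≤ pr (G + G) (LF p z) := pr_mono hle fun _ => le_rfl
    _ = pr G (LF p z) + pr G (LF p z) := pr_add _ _ _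
    _ ≤ γ * LF p z 0 + γ * LF p z 0 := add_le_add hGL hGL
    _ = 2 * γ * LF p z 0 := by ring

end Pool.Agent.Lib.MPba1bba.LG
end

section
/-! # MP_ba1bba_al, LG: module GNB (helper47) -/
set_option autoImplicit false

open scoped ENNReal

namespace Pool.Agent.Lib.MPba1bba.LG

open Pool.Agent.Lib.MPba1bba Pool.Agent.Lib.MPba1bba.AS Pool.Agent.Lib.MPba1bba.LR
  Pool.Agent.Lib.MPba1bba.LC Vec

namespace GNBM

theorem Bs_add {p : ℕ} {F G : Ser} (hF : Bs p F) (hG : Bs p G) : Bs p (F + G) := by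
  intro n s h
  rw [map_add, AddMonoidAlgebra.coeff_add, Finsupp.add_apply] at h
  by_cases h1 : (PowerSeries.coeff n F).coeff s = 0
  · rw [h1, zero_add] at h
    exact hG n s h
  · exact hF n s h1

theorem Bs_one (p : ℕ) : Bs p (1 : Ser) := by
  classical
  intro n s h
  rw [PowerSeries.coeff_one] at h
  split_ifs at h with hn
  · have hs : s = 0 := by
      by_contra hs
      apply h
      rw [AddMonoidAlgebra.one_def]
      exact Finsupp.single_eq_of_ne hs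
    subst hs
    intro x hx
    exact absurd hx (Multiset.notMem_zero x)
  · exact absurd rfl h

theorem pr_mono_bd {p : ℕ} {x : Vec} (hx : Bd p x) {f g : Fn} (h : ∀ s, bs p s → f s ≤ g s) :
    pr x f ≤ pr x g := by
  refine ENNReal.tsum_le_tsum fun s => ?_
  by_cases h1 : x.co s = 0
  · rw [h1, zero_mul, zero_mul]
  · exact mul_le_mul' le_rfl (h s (hx s h1))

end GNBM

open GNBM in
/-- **GNB.** -/
theorem specGNB (hEVA : SpecEVA) (hEVL : SpecEVL) (hPSR : SpecPSR) (hEQT : SpecEQT)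
    (hFON : SpecFON) (hFTW : SpecFTW) (hPRM : SpecPRM) : SpecGNB := by
  intro p m Q E H V U hD z e hz he hE hM
  have hp := hD.hp
  have hm := hD.hm
  obtain ⟨-, -, hN0, -, -⟩ := hFTW p z hp hz.le
  obtain ⟨⟨-, -, nE, nH, -, -, nR, -⟩, hP2, -, -, -⟩ := hPSR p m Q E H V U hD
  obtain ⟨-, -, -, hT4, -, -, -⟩ := hEQT p m Q E H V U hD z
  obtain ⟨hV1, hV2, hV3, hV4, hV5, hV6, hV7, hV8, hV9, hV10, hV11⟩ := hEVL p m
  obtain ⟨⟨n1, -, hA1⟩, hA2, hA3, hA4, hA5, -⟩ := hEVA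
  obtain ⟨-, hM2, hM3, -⟩ := hPRM p z hp hz.le
  have hF := (hFON p m z hp hm).1
  have n1E : Nn (1 + E) := (hA2 _ _ n1 nE).1
  have nG : Nn (1 + E + H) := (hA2 _ _ n1E nH).1
  have nRG : Nn (serR Q E * (1 + E + H)) := (hA2 _ _ nR nG).2.1
  have nL : Nn (lam p m (serR Q E * (1 + E + H))) := hV2 _ nRG
  have nXL : Nn (PowerSeries.X * lam p m (serR Q E * (1 + E + H))) := (hA2 _ _ nL nL).2.2
  have hG : (1 : Ser) + E + H = (1 + E) + PowerSeries.X * lam p m (serR Q E * (1 + E + H)) :=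
    congrArg (fun T => 1 + E + T) hD.sys.2.2
  have bE : Bs p E := hP2.2.2.1
  have bH : Bs p H := hP2.2.2.2.1
  have bR : Bs p (serR Q E) := hP2.2.2.2.2.2.2
  have bG : Bs p (1 + E + H) := Bs_add (Bs_add (Bs_one p) bE) bH
  have hRM : pr (ev z (serR Q E)) (LF p z) ≤ MM p z e := by
    rw [hT4]
    exact hM3 _ e (hV11 z E bE).1 hE
  have hev1E : pr (ev z (1 + E)) (NF p z) ≤ 1 + e := by
    rw [(hA3 z 1 E n1 nE).1, (hA1 z 0).1, pr_add, pr_one, hN0]
    exact add_le_add le_rfl hE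
  set γ : ℝ≥0∞ := (1 + e) / (1 - z * MM p z e) with hγ
  have hγe : 1 + e + z * MM p z e * γ = γ := by
    have h1 : 1 - z * MM p z e ≠ 0 := (tsub_pos_of_lt hM).ne'
    have h2 : 1 - z * MM p z e ≠ ∞ := ne_top_of_le_ne_top ENNReal.one_ne_top tsub_le_self
    have h3 : γ * (1 - z * MM p z e) = 1 + e := ENNReal.div_mul_cancel h1 h2
    calc 1 + e + z * MM p z e * γ = γ * (1 - z * MM p z e) + γ * (z * MM p z e) := by
          rw [h3, mul_comm γ]
      _ = γ * (1 - z * MM p z e + z * MM p z e) := by rw [mul_add]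
      _ = γ := by rw [tsub_add_cancel_of_le hM.le, mul_one]
  have hstep : ∀ N, pr (evt z (N + 1) (1 + E + H)) (NF p z) ≤
      1 + e + z * MM p z e * pr (evt z N (1 + E + H)) (NF p z) := by
    intro N
    have e1 : evt z (N + 1) (1 + E + H) =
        evt z (N + 1) (1 + E) + z • evt z N (lam p m (serR Q E * (1 + E + H))) := by
      conv_lhs => rw [hG]
      rw [(hA4 z (N + 1) _ _ n1E nXL).1, (hA4 z N _ _ nL nL).2.2]
    have e2 : pr (evt z (N + 1) (1 + E)) (NF p z) ≤ 1 + e :=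
      (pr_mono ((hA5 z (1 + E)).2.1 (N + 1)).2 fun _ => le_rfl).trans hev1E
    have e3 : evt z N (lam p m (serR Q E * (1 + E + H))) ≤
        Lv p m z (ev z (serR Q E) * evt z N (1 + E + H)) := by
      refine ((hV4 z _ nRG).2 N).trans (hV8 z _ _ ?_)
      refine ((hA4 z N _ _ nR nG).2.1).trans (mul_mono ((hA5 z (serR Q E)).2.1 N).2 le_rfl)
    have e4 : pr (Lv p m z (ev z (serR Q E) * evt z N (1 + E + H))) (NF p z) ≤
        MM p z e * pr (evt z N (1 + E + H)) (NF p z) := by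
      rw [hV5]
      have b1 : Bd p (ev z (serR Q E) * evt z N (1 + E + H)) :=
        (hV10 _ _ (hV11 z _ bR).1 ((hV11 z _ bG).2 N)).1
      refine (pr_mono_bd b1 hF).trans ?_
      rw [mul_comm (ev z (serR Q E))]
      refine (hM2 _ _).trans ?_
      rw [mul_comm]
      exact mul_le_mul' hRM le_rfl
    rw [e1, pr_add, smul_pr, mul_assoc]
    exact add_le_add e2 (mul_le_mul' le_rfl ((pr_mono e3 fun _ => le_rfl).trans e4))
  have hall : ∀ N, pr (evt z N (1 + E + H)) (NF p z) ≤ γ := by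
    intro N
    induction N with
    | zero => rw [(hA5 z _).1, pr_zero]; exact bot_le
    | succ N ih =>
      refine (hstep N).trans ?_
      calc 1 + e + z * MM p z e * pr (evt z N (1 + E + H)) (NF p z)
          ≤ 1 + e + z * MM p z e * γ := add_le_add le_rfl (mul_le_mul' le_rfl ih)
        _ = γ := hγe
  rw [(hA5 z _).2.2]
  exact iSup_le hall

end Pool.Agent.Lib.MPba1bba.LG
end

section
/-!
# MP_ba1bba_al, LG: the growth rate of the limit series (module LGF)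
-/
open scoped ENNReal

namespace Pool.Agent.Lib.MPba1bba.LG

open Pool.Agent.Lib.MPba1bba Pool.Agent.Lib.MPba1bba.AS Pool.Agent.Lib.MPba1bba.LR
  Pool.Agent.Lib.MPba1bba.LC Vec Filter Topology

/-- `(2 K)^{1/n} n^{1/n} → 1`. -/
theorem lgf_tendsto_one (K : ℝ) (hK : 0 < K) :
    Tendsto (fun n : ℕ => (2 * K) ^ (1 / (n : ℝ)) * (n : ℝ) ^ (1 / (n : ℝ))) atTop (𝓝 1) := by
  have h1 : Tendsto (fun n : ℕ => (2 * K) ^ (1 / (n : ℝ))) atTop (𝓝 1) := by
    have h : Tendsto (fun n : ℕ => 1 / (n : ℝ)) atTop (𝓝 0) := tendsto_one_div_atTop_nhds_zero_nat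
    have hc : ContinuousAt (fun t : ℝ => (2 * K) ^ t) 0 :=
      Real.continuousAt_const_rpow (by positivity)
    have h2 := hc.tendsto.comp h
    simpa [Function.comp_def] using h2
  have h2 : Tendsto (fun n : ℕ => (n : ℝ) ^ (1 / (n : ℝ))) atTop (𝓝 1) :=
    tendsto_rpow_div.comp tendsto_natCast_atTop_atTop
  simpa using h1.mul h2

/-- The real analysis: `(1/x)^n ≤ b n` and `b n * y^n ≤ (n + 1) K(y)` for `y < x` give the growth rate. -/
theorem lgf_limit (x : ℝ) (hx0 : 0 < x) (b : ℕ → ℝ)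
    (hlow : ∀ n, (1 / x) ^ n ≤ b n)
    (hup : ∀ y : ℝ, 0 < y → y < x → ∃ K : ℝ, 0 < K ∧ ∀ n : ℕ, b n * y ^ n ≤ (n + 1) * K) :
    Tendsto (fun n : ℕ => b n ^ (1 / (n : ℝ))) atTop (𝓝 (1 / x)) := by
  have hb0 : ∀ n, 0 ≤ b n := fun n => le_trans (by positivity) (hlow n)
  refine tendsto_order.2 ⟨fun a ha => ?_, fun a ha => ?_⟩
  · filter_upwards [eventually_ge_atTop 1] with n hn
    refine lt_of_lt_of_le ha ?_
    have hn0 : (n : ℝ) ≠ 0 := by positivity
    calc 1 / x = ((1 / x) ^ n) ^ (1 / (n : ℝ)) := by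
          rw [one_div (n : ℝ), Real.pow_rpow_inv_natCast (by positivity) (by omega)]
      _ ≤ b n ^ (1 / (n : ℝ)) := Real.rpow_le_rpow (by positivity) (hlow n) (by positivity)
  · -- choose y
    have hxa : 0 < 1 / x := by positivity
    have hsum : 0 < 1 / x + a := by linarith
    obtain ⟨y, hy0, hyx, hya⟩ : ∃ y : ℝ, 0 < y ∧ y < x ∧ 1 / y < a := by
      refine ⟨2 / (1 / x + a), by positivity, ?_, ?_⟩
      · rw [div_lt_iff₀ hsum]
        have : x * (1 / x) = 1 := by field_simp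
        nlinarith
      · rw [one_div_div]
        linarith
    obtain ⟨K, hK, hKb⟩ := hup y hy0 hyx
    have ht : Tendsto (fun n : ℕ => (2 * K) ^ (1 / (n : ℝ)) * (n : ℝ) ^ (1 / (n : ℝ)) * (1 / y)) atTop
        (𝓝 (1 * (1 / y))) := (lgf_tendsto_one K hK).mul_const _
    rw [one_mul] at ht
    filter_upwards [(tendsto_order.1 ht).2 a hya, eventually_ge_atTop 1] with n hn hn1
    refine lt_of_le_of_lt ?_ hn
    have hnr : (1 : ℝ) ≤ n := by exact_mod_cast hn1
    have hb : b n ≤ (2 * K * n) * (1 / y) ^ n := by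
      have h1 := hKb n
      have hyn : 0 < y ^ n := by positivity
      rw [one_div, inv_pow, ← div_eq_mul_inv, le_div_iff₀ hyn]
      refine h1.trans ?_
      nlinarith
    calc b n ^ (1 / (n : ℝ)) ≤ ((2 * K * n) * (1 / y) ^ n) ^ (1 / (n : ℝ)) :=
          Real.rpow_le_rpow (hb0 n) hb (by positivity)
      _ = (2 * K) ^ (1 / (n : ℝ)) * (n : ℝ) ^ (1 / (n : ℝ)) * (1 / y) := by
          rw [Real.mul_rpow (by positivity) (by positivity), Real.mul_rpow (by positivity) (by positivity)]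
          congr 1
          rw [one_div (n : ℝ), Real.pow_rpow_inv_natCast (by positivity) (by omega)]

theorem specLGF (hLR : MainLR) (hLC : MainLC) (hEQP : SpecEQP) (hSBM : SpecSBM) (hUNB : SpecUNB) :
    SpecLGF := by
  intro p hp
  obtain ⟨x, hx0, hx1, hxF, hxu, hx2, C, κ, hκ0, hκ1, hω⟩ := hLR p hp
  obtain ⟨e, he, heu, halg, hsp⟩ := hLC p hp
  refine ⟨x, e, ⟨hx0, hx1, hxF, hxu, hx2⟩, ⟨he, heu⟩, halg, hsp, ?_, C, κ, hκ0, hκ1, hω⟩
  have hxM : x * Mr p x x = 1 := (hEQP.1 p x hp hx0 hx1).1 hxF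
  -- the partial sums are ball sizes
  have hball : ∀ m n : ℕ, n + 2 ≤ m → ∀ k ≤ n,
      ((PowerSeries.coeff k (Sz p e) : ℤ) : ℝ) = (sphere p (p * m) k : ℝ) := by
    intro m n hm k hk
    have h := hsp m k (by omega) (by
      have h1 : k ≤ m - 1 := by omega
      calc 2 * k ≤ 2 * (m - 1) := by omega
        _ ≤ p * (m - 1) := Nat.mul_le_mul_right _ hp)
    rw [← h]
    push_cast
    rfl
  have hballs : ∀ m n : ℕ, n + 2 ≤ m →
      ∑ k ∈ Finset.range (n + 1), ((PowerSeries.coeff k (Sz p e) : ℤ) : ℝ) =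
        ∑ k ∈ Finset.range (n + 1), (sphere p (p * m) k : ℝ) := fun m n hm =>
    Finset.sum_congr rfl fun k hk => hball m n hm k (by
      have := Finset.mem_range.1 hk
      omega)
  refine lgf_limit x hx0 _ (fun n => ?_) (fun y hy0 hyx => ?_)
  · -- lower bound
    have hκ : Tendsto (fun m : ℕ => 1 / x - C * κ ^ m) atTop (𝓝 (1 / x - C * 0)) :=
      ((tendsto_pow_atTop_nhds_zero_of_lt_one hκ0.le hκ1).const_mul C).const_sub _
    rw [mul_zero, sub_zero] at hκ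
    have hκn : Tendsto (fun m : ℕ => (1 / x - C * κ ^ m) ^ n) atTop (𝓝 ((1 / x) ^ n)) := hκ.pow n
    refine le_of_tendsto hκn ?_
    have hpos : ∀ᶠ m : ℕ in atTop, 0 < 1 / x - C * κ ^ m :=
      (tendsto_order.1 hκ).1 0 (by positivity)
    filter_upwards [hpos, eventually_ge_atTop (n + 2)] with m hm0 hm
    obtain ⟨ω, hω1, hω2, -⟩ := hω m (by omega)
    rw [hballs m n hm]
    have hω0 : 0 ≤ ω := hm0.le.trans hω2
    exact (pow_le_pow_left₀ hm0.le hω2 n).trans ((hSBM p (p * m)).2 ω hω0 hω1 n)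
  · -- upper bound
    obtain ⟨K, hK⟩ := hUNB p x y hp hy0 hyx hx1 hxM
    refine ⟨max K 1, lt_of_lt_of_le one_pos (le_max_right _ _), fun n => ?_⟩
    rw [hballs (n + 2) n le_rfl, Finset.sum_mul]
    have hy1 : y ≤ 1 := by linarith
    calc ∑ k ∈ Finset.range (n + 1), (sphere p (p * (n + 2)) k : ℝ) * y ^ n
        ≤ ∑ _k ∈ Finset.range (n + 1), max K 1 := by
          refine Finset.sum_le_sum fun k hk => ?_
          have hkn : k ≤ n := by
            have := Finset.mem_range.1 hk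
            omega
          calc (sphere p (p * (n + 2)) k : ℝ) * y ^ n ≤ (sphere p (p * (n + 2)) k : ℝ) * y ^ k :=
                mul_le_mul_of_nonneg_left (pow_le_pow_of_le_one hy0.le hy1 hkn) (Nat.cast_nonneg _)
            _ ≤ K := hK (n + 2) k (by omega)
            _ ≤ max K 1 := le_max_left _ _
      _ = ((n : ℝ) + 1) * max K 1 := by
          rw [Finset.sum_const, Finset.card_range, nsmul_eq_mul]
          push_cast
          rfl

end Pool.Agent.Lib.MPba1bba.LG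
end

section
/-!
# MP_ba1bba_al, folder LG, module MRM: monotonicity of `M_z(x)` in `z` (helper20)
-/
open scoped ENNReal

namespace Pool.Agent.Lib.MPba1bba.LG

open Pool.Agent.Lib.MPba1bba Pool.Agent.Lib.MPba1bba.AS Pool.Agent.Lib.MPba1bba.LR
  Pool.Agent.Lib.MPba1bba.LC Vec

theorem specMRM (hCRP : SpecCRP) : SpecMRM := by
  intro p x y hp hy hyx hx2 hM
  obtain ⟨-, -, h3, -, h5, -⟩ := hCRP p hp
  have hx : 0 < x := hy.trans hyx
  -- the products `x c_t`
  have hc0 : ∀ t, 0 ≤ cr p t y := fun t => (h3 t y y hy.le le_rfl).1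
  have hcc : ∀ t, cr p t y ≤ cr p t x := fun t => (h3 t y x hy.le hyx.le).2
  have hcx : ∀ t, x * cr p t x < 1 := fun t => h5 t x hx.le hx2.le
  have hcy : ∀ t, x * cr p t y < 1 := fun t =>
    lt_of_le_of_lt (mul_le_mul_of_nonneg_left (hcc t) hx.le) (hcx t)
  -- the functions `u_t`
  have hu1 : ∀ t, 1 ≤ ur p t y x := by
    intro t
    unfold ur
    rw [le_div_iff₀ (by linarith [hcy t])]
    nlinarith [hc0 t, hx, mul_nonneg hx.le (hc0 t)]
  have hu0 : ∀ t, 0 ≤ ur p t y x := fun t => zero_le_one.trans (hu1 t)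
  have huu : ∀ t, ur p t y x ≤ ur p t x x := by
    intro t
    unfold ur
    apply one_div_le_one_div_of_le
    · linarith [hcx t]
    · have := mul_le_mul_of_nonneg_left (hcc t) hx.le
      linarith
  -- the powers
  have hyp : y ^ p ≤ x ^ p := pow_le_pow_left₀ hy.le hyx.le p
  have hxp : x ^ p < 1 := pow_lt_one₀ hx.le (by linarith) (by omega)
  have hyp0 : 0 < y ^ p := pow_pos hy p
  have hq1 : 1 ≤ (1 + y ^ p) / (1 - y ^ p) := by
    rw [le_div_iff₀ (by linarith)]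
    linarith
  have hqq : (1 + y ^ p) / (1 - y ^ p) ≤ (1 + x ^ p) / (1 - x ^ p) := by
    apply div_le_div₀
    · linarith
    · linarith
    · linarith
    · linarith
  have hA1 : 1 ≤ (1 + y ^ p) / (1 - y ^ p) * (1 + cr p 0 y) * ur p 0 y x := by
    have h1 : (1 : ℝ) ≤ 1 + cr p 0 y := by linarith [hc0 0]
    calc (1 : ℝ) = 1 * 1 * 1 := by norm_num
      _ ≤ _ := by
        apply mul_le_mul _ (hu1 0) zero_le_one
        · exact mul_nonneg (zero_le_one.trans hq1) (zero_le_one.trans h1)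
        · exact mul_le_mul hq1 h1 zero_le_one (zero_le_one.trans hq1)
  have hAA : (1 + y ^ p) / (1 - y ^ p) * (1 + cr p 0 y) * ur p 0 y x ≤
      (1 + x ^ p) / (1 - x ^ p) * (1 + cr p 0 x) * ur p 0 x x := by
    have h1 : (0 : ℝ) ≤ 1 + cr p 0 y := by linarith [hc0 0]
    have h2 : 0 ≤ (1 + x ^ p) / (1 - x ^ p) := (zero_le_one.trans hq1).trans hqq
    apply mul_le_mul _ (huu 0) (hu0 0)
    · exact mul_nonneg h2 (by linarith [hc0 0, hcc 0])
    · exact mul_le_mul hqq (by linarith [hcc 0]) h1 h2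
  have hB0 : 0 ≤ ∑ t ∈ Finset.range (p - 1), y ^ (p - 1 - t) * ur p t y x * ur p (t + 1) y x :=
    Finset.sum_nonneg fun t _ =>
      mul_nonneg (mul_nonneg (pow_nonneg hy.le _) (hu0 t)) (hu0 (t + 1))
  have hBB : ∑ t ∈ Finset.range (p - 1), y ^ (p - 1 - t) * ur p t y x * ur p (t + 1) y x ≤
      ∑ t ∈ Finset.range (p - 1), x ^ (p - 1 - t) * ur p t x x * ur p (t + 1) x x := by
    refine Finset.sum_le_sum fun t _ => ?_
    have h1 : y ^ (p - 1 - t) ≤ x ^ (p - 1 - t) := pow_le_pow_left₀ hy.le hyx.le _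
    apply mul_le_mul _ (huu (t + 1)) (hu0 (t + 1))
    · exact mul_nonneg (pow_nonneg hx.le _) ((hu0 t).trans (huu t))
    · exact mul_le_mul h1 (huu t) (hu0 t) (pow_nonneg hx.le _)
  have hM1 : 1 ≤ Mr p y x := by
    unfold Mr
    nlinarith [mul_nonneg (by linarith : (0 : ℝ) ≤ 1 + x) hB0]
  have hMM : Mr p y x ≤ Mr p x x := by
    unfold Mr
    have := mul_le_mul_of_nonneg_left hBB (by linarith : (0 : ℝ) ≤ 1 + x)
    linarith
  have hMx : 0 < Mr p x x := by linarith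
  refine ⟨?_, ?_, fun t _ => hcy t⟩
  · calc y * Mr p y x ≤ y * Mr p x x := mul_le_mul_of_nonneg_left hMM hy.le
      _ < x * Mr p x x := mul_lt_mul_of_pos_right hyx hMx
      _ = 1 := hM
  · have h1 : 0 ≤ (1 + x) * Mr p y x - 1 := by nlinarith
    have h2 : (1 + x) * Mr p y x - 1 ≤ (1 + x) * Mr p x x - 1 := by
      have := mul_le_mul_of_nonneg_left hMM (by linarith : (0 : ℝ) ≤ 1 + x)
      linarith
    have h3 : y ^ 2 ≤ x ^ 2 := pow_le_pow_left₀ hy.le hyx.le 2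
    have h4 : y ^ 2 * ((1 + x) * Mr p y x - 1) ≤ x ^ 2 * ((1 + x) * Mr p x x - 1) :=
      mul_le_mul h3 h2 h1 (by positivity)
    have h5 : x ^ 2 * ((1 + x) * Mr p x x - 1) = x := by
      have : x ^ 2 * ((1 + x) * Mr p x x - 1) = x * (1 + x) * (x * Mr p x x) - x ^ 2 := by ring
      rw [this, hM]
      ring
    nlinarith

end Pool.Agent.Lib.MPba1bba.LG
end

section
/-!
# MP_ba1bba_al, LG: module PZB (numerical bounds for `P` and `L` at the empty state)
-/
open scoped ENNReal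

namespace Pool.Agent.Lib.MPba1bba.LG

open Pool.Agent.Lib.MPba1bba Pool.Agent.Lib.MPba1bba.AS Pool.Agent.Lib.MPba1bba.LR
  Pool.Agent.Lib.MPba1bba.LC Vec

namespace PZBM

/-- The geometric sum `∑_{k ≥ 1} 4^{-k} = 1/3`. -/
theorem geo4 : ∑' k : ℕ, (4⁻¹ : ℝ≥0∞) ^ (k + 1) = 3⁻¹ := by
  have h1 : ∑' k : ℕ, (4⁻¹ : ℝ≥0∞) ^ (k + 1) = 4⁻¹ * ∑' k : ℕ, (4⁻¹ : ℝ≥0∞) ^ k := by
    rw [← ENNReal.tsum_mul_left]
    exact tsum_congr fun k => pow_succ' _ _
  rw [h1, ENNReal.tsum_geometric]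
  have h2 : (1 : ℝ≥0∞) - 4⁻¹ = 3 * 4⁻¹ := by
    have h3 : (1 : ℝ≥0∞) = 3 * 4⁻¹ + 4⁻¹ := by
      have h4 : (3 * 4⁻¹ + 4⁻¹ : ℝ≥0∞) = 4 * 4⁻¹ := by ring
      rw [h4]
      exact (ENNReal.mul_inv_cancel (by norm_num) (by norm_num)).symm
    rw [h3]
    refine ENNReal.add_sub_cancel_right ?_
    simp
  rw [h2, ENNReal.mul_inv (Or.inl (by norm_num)) (Or.inl (by norm_num)), inv_inv]
  rw [show (4⁻¹ : ℝ≥0∞) * (3⁻¹ * 4) = (4 * 4⁻¹) * 3⁻¹ by ring,
    ENNReal.mul_inv_cancel (by norm_num) (by norm_num), one_mul]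

/-- `z^p ≤ 1/4`. -/
theorem zp_le {p : ℕ} {z : ℝ≥0∞} (hp : 2 ≤ p) (hz : z ≤ 2⁻¹) : z ^ p ≤ 4⁻¹ := by
  have hz1 : z ≤ 1 := hz.trans (by norm_num)
  calc z ^ p ≤ z ^ 2 := pow_le_pow_right_of_le_one' hz1 hp
    _ ≤ (2⁻¹ : ℝ≥0∞) ^ 2 := pow_le_pow_left' hz 2
    _ = 4⁻¹ := by
        rw [← ENNReal.inv_pow]
        norm_num

theorem zpk_le {p : ℕ} {z : ℝ≥0∞} (hp : 2 ≤ p) (hz : z ≤ 2⁻¹) (k : ℕ) :
    z ^ (p * k) ≤ 4⁻¹ ^ k := by
  rw [pow_mul]
  exact pow_le_pow_left' (zp_le hp hz) k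

theorem A1_le {p : ℕ} {z : ℝ≥0∞} (hp : 2 ≤ p) (hz : z ≤ 2⁻¹) :
    ∑' k : ℕ, z ^ (p * (k + 1)) ≤ 3⁻¹ := by
  rw [← geo4]
  exact ENNReal.tsum_le_tsum fun k => zpk_le hp hz (k + 1)

/-- `L(∅) ≤ 5/3`. -/
theorem LF_le (hB : SpecBFN) {p : ℕ} {z : ℝ≥0∞} (hp : 2 ≤ p) (hz : z ≤ 2⁻¹) :
    LF p z 0 ≤ 1 + 2 * 3⁻¹ := by
  obtain ⟨-, -, h0, -⟩ := hB p
  have h1 : LF p z 0 = ∑' n : ℕ, z ^ (p * n) + ∑' n : ℕ, z ^ (p * (n + 1)) := by
    unfold LF
    rw [tsum_of_nat_of_neg_add_one (f := fun k : ℤ => z ^ bfun p 0 k) ENNReal.summable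
      ENNReal.summable]
    congr 1
    · refine tsum_congr fun n => ?_
      rw [h0]
      simp
    · refine tsum_congr fun n => ?_
      rw [h0]
      congr 2
  have h2 : ∑' n : ℕ, z ^ (p * n) = 1 + ∑' n : ℕ, z ^ (p * (n + 1)) := by
    rw [tsum_eq_zero_add' ENNReal.summable]
    simp
  rw [h1, h2]
  have h3 := A1_le hp hz
  calc 1 + ∑' n : ℕ, z ^ (p * (n + 1)) + ∑' n : ℕ, z ^ (p * (n + 1)) ≤ 1 + 3⁻¹ + 3⁻¹ := by
        gcongr
    _ = 1 + 2 * 3⁻¹ := by ring

/-- `cmin(∅,r) ≥ p r` or `≥ p (m - r)`. -/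
theorem cmin_ge (hB : SpecBFN) {p m r : ℕ} (hr : r < m) :
    p * r ≤ cmin p m 0 r ∨ p * (m - r) ≤ cmin p m 0 r := by
  obtain ⟨-, -, h0, -⟩ := hB p
  have hex : ∃ j : ℤ, cmin p m 0 r = bfun p 0 (r + m * j) := by
    have h1 := ciInf_mem (fun j : ℤ => bfun p 0 (r + m * j))
    obtain ⟨j, hj⟩ := h1
    exact ⟨j, hj.symm⟩
  obtain ⟨j, hj⟩ := hex
  rw [h0] at hj
  rw [hj]
  rcases le_or_gt 0 j with h | h
  · left
    apply Nat.mul_le_mul_left
    have h2 : 0 ≤ (m : ℤ) * j := mul_nonneg (by omega) h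
    omega
  · right
    apply Nat.mul_le_mul_left
    have h2 : (m : ℤ) * j ≤ (m : ℤ) * (-1) := mul_le_mul_of_nonneg_left (by omega) (by omega)
    omega

theorem sum_le (hB : SpecBFN) {p m : ℕ} {z : ℝ≥0∞} (hp : 2 ≤ p) (hz : z ≤ 2⁻¹) :
    ∑ r ∈ Finset.Ico 1 m, z ^ cmin p m 0 r ≤ 2 * 3⁻¹ := by
  have hz1 : z ≤ 1 := hz.trans (by norm_num)
  have h1 : ∀ r ∈ Finset.Ico 1 m, z ^ cmin p m 0 r ≤ z ^ (p * r) + z ^ (p * (m - r)) := by
    intro r hr
    rw [Finset.mem_Ico] at hr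
    rcases cmin_ge hB (p := p) hr.2 with h | h
    · exact (pow_le_pow_right_of_le_one' hz1 h).trans le_self_add
    · exact (pow_le_pow_right_of_le_one' hz1 h).trans le_add_self
  have h2 : ∑ r ∈ Finset.Ico 1 m, z ^ (p * r) ≤ 3⁻¹ := by
    rw [Finset.sum_Ico_eq_sum_range]
    calc ∑ k ∈ Finset.range (m - 1), z ^ (p * (1 + k))
        = ∑ k ∈ Finset.range (m - 1), z ^ (p * (k + 1)) := by
          refine Finset.sum_congr rfl fun k _ => ?_
          rw [add_comm 1 k]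
      _ ≤ ∑' k : ℕ, z ^ (p * (k + 1)) := ENNReal.sum_le_tsum _
      _ ≤ 3⁻¹ := A1_le hp hz
  have h3 : ∑ r ∈ Finset.Ico 1 m, z ^ (p * (m - r)) = ∑ r ∈ Finset.Ico 1 m, z ^ (p * r) := by
    refine Finset.sum_bij' (fun r _ => m - r) (fun r _ => m - r) ?_ ?_ ?_ ?_ ?_
    · intro r hr
      rw [Finset.mem_Ico] at hr ⊢
      omega
    · intro r hr
      rw [Finset.mem_Ico] at hr ⊢
      omega
    · intro r hr
      rw [Finset.mem_Ico] at hr
      omega
    · intro r hr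
      rw [Finset.mem_Ico] at hr
      omega
    · intro r hr
      rfl
  calc ∑ r ∈ Finset.Ico 1 m, z ^ cmin p m 0 r
      ≤ ∑ r ∈ Finset.Ico 1 m, (z ^ (p * r) + z ^ (p * (m - r))) := Finset.sum_le_sum h1
    _ = ∑ r ∈ Finset.Ico 1 m, z ^ (p * r) + ∑ r ∈ Finset.Ico 1 m, z ^ (p * r) := by
        rw [Finset.sum_add_distrib, h3]
    _ ≤ 3⁻¹ + 3⁻¹ := add_le_add h2 h2
    _ = 2 * 3⁻¹ := by ring

end PZBM

open PZBM in
theorem specPZB (hBFN : SpecBFN) (hPZR : SpecPZR) (hPZF : SpecPZF) : SpecPZB := by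
  intro p m z hp hm hz
  have hz1 : z ≤ 1 := hz.trans (by norm_num)
  have hzlt : z < 1 := lt_of_le_of_lt hz (by norm_num)
  have hz2 : z ^ 2 ≤ 4⁻¹ := zp_le le_rfl hz
  have hL : LF p z 0 ≤ 1 + 2 * 3⁻¹ := LF_le hBFN hp hz
  have h3i : (3⁻¹ : ℝ≥0∞) = ENNReal.ofReal (1 / 3) := by
    rw [one_div, ENNReal.ofReal_inv_of_pos (by norm_num)]
    norm_num
  have h4i : (4⁻¹ : ℝ≥0∞) = ENNReal.ofReal (1 / 4) := by
    rw [one_div, ENNReal.ofReal_inv_of_pos (by norm_num)]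
    norm_num
  have h53 : (1 + 2 * 3⁻¹ : ℝ≥0∞) = ENNReal.ofReal (5 / 3) := by
    rw [h3i, show (2 : ℝ≥0∞) = ENNReal.ofReal 2 by norm_num,
      show (1 : ℝ≥0∞) = ENNReal.ofReal 1 by norm_num, ← ENNReal.ofReal_mul (by norm_num),
      ← ENNReal.ofReal_add (by norm_num) (by norm_num)]
    norm_num
  have hfin : Pz p m z 0 ≠ ∞ := by
    apply hPZF p m z hp hm hzlt
    have hs := sum_le hBFN (m := m) hp hz
    calc z ^ 2 * (1 + 2 * ∑ r ∈ Finset.Ico 1 m, z ^ cmin p m 0 r)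
        ≤ 4⁻¹ * (1 + 2 * (2 * 3⁻¹)) := by gcongr
      _ = ENNReal.ofReal (7 / 12) := by
          rw [h3i, h4i, show (2 : ℝ≥0∞) = ENNReal.ofReal 2 by norm_num,
            show (1 : ℝ≥0∞) = ENNReal.ofReal 1 by norm_num, ← ENNReal.ofReal_mul (by norm_num),
            ← ENNReal.ofReal_mul (by norm_num), ← ENNReal.ofReal_add (by norm_num) (by norm_num),
            ← ENNReal.ofReal_mul (by norm_num)]
          norm_num
      _ < 1 := by
          rw [← ENNReal.ofReal_one]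
          exact (ENNReal.ofReal_lt_ofReal_iff (by norm_num)).2 (by norm_num)
  refine ⟨?_, ?_⟩
  · obtain ⟨P, hP0, hP⟩ : ∃ P : ℝ, 0 ≤ P ∧ Pz p m z 0 = ENNReal.ofReal P :=
      ⟨(Pz p m z 0).toReal, ENNReal.toReal_nonneg, (ENNReal.ofReal_toReal hfin).symm⟩
    have h1 : Pz p m z 0 ≤ ENNReal.ofReal (5 / 3) * (1 + 4⁻¹ * Pz p m z 0) := by
      rw [← h53]
      calc Pz p m z 0 ≤ LF p z 0 * (1 + z ^ 2 * Pz p m z 0) := hPZR p m z 0 hp hm hz1
        _ ≤ _ := by gcongr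
    rw [hP, h4i, ← ENNReal.ofReal_mul (by norm_num), show (1 : ℝ≥0∞) = ENNReal.ofReal 1 by norm_num,
      ← ENNReal.ofReal_add (by norm_num) (by positivity), ← ENNReal.ofReal_mul (by norm_num),
      ENNReal.ofReal_le_ofReal_iff (by positivity)] at h1
    have h2 : P ≤ 3 := by nlinarith
    rw [hP]
    calc ENNReal.ofReal P ≤ ENNReal.ofReal 3 := ENNReal.ofReal_le_ofReal h2
      _ = 3 := by norm_num
  · refine hL.trans ?_
    rw [h53]
    calc ENNReal.ofReal (5 / 3) ≤ ENNReal.ofReal 2 := ENNReal.ofReal_le_ofReal (by norm_num)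
      _ = 2 := by norm_num

end Pool.Agent.Lib.MPba1bba.LG
end

section
/-!
# MP_ba1bba_al, LG: the series `P_s` against `L_s`
-/
open scoped ENNReal

namespace Pool.Agent.Lib.MPba1bba.LG

open Pool.Agent.Lib.MPba1bba Pool.Agent.Lib.MPba1bba.AS Pool.Agent.Lib.MPba1bba.LR Vec

theorem specPZR (hIC : SpecIC) (hEFN : SpecEFN) (hBFN : SpecBFN) : SpecPZR := by
  intro p m z s hp hm hz
  obtain ⟨hat, hle, -⟩ := hIC
  obtain ⟨e0, -, -, ele, -, -, -, eat, edc⟩ := hEFN p m (by omega) (by omega)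
  obtain ⟨-, -, b0, -, bL, -⟩ := hBFN p
  -- pointwise
  have key : ∀ k : ℤ, z ^ ic (bfun p s) (efun p m) k ≤
      z ^ bfun p s k + z ^ 2 * ∑' l : ℤ, z ^ bfun p s (k - m * l) * z ^ efun p m l := by
    intro k
    obtain ⟨i, hi⟩ := hat (bfun p s) (efun p m) k
    obtain ⟨d, hd, hdc⟩ := eat (k - i)
    rw [hi]
    rcases d with - | ⟨d₀, rest⟩
    · refine le_add_right (pow_le_pow_right_of_le_one' hz ?_)
      have h1 : k - i = 0 := by rw [← hd]; rfl
      have h2 : k = i := by omega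
      rw [h2]
      exact Nat.le_add_right _ _
    rcases hr : rest with - | ⟨d₁, rest'⟩
    · refine le_add_right (pow_le_pow_right_of_le_one' hz ?_)
      have h1 : efun p m (k - i) = p * (k - i).natAbs := by
        rw [hdc, ← hd, hr]
        simp [dcost, dval]
      rw [h1]
      exact bL s k i
    · have hv : k - i = d₀ + m * dval m rest := by rw [← hd]; rfl
      set l := dval m rest with hl
      have hcost : efun p m (k - i) = p * d₀.natAbs + 2 + dcost p rest := by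
        rw [hdc]
        subst hr
        simp only [dcost, List.map_cons, List.sum_cons, List.length_cons]
        have : rest'.length + 1 + 1 - 1 = rest'.length + 1 := by omega
        rw [this, Nat.add_sub_cancel]
        ring
      have h1 : bfun p s (k - m * l) ≤ bfun p s i + p * d₀.natAbs := by
        have h2 := bL s (k - m * l) i
        have h3 : (k - m * l - i) = d₀ := by linarith
        rwa [h3] at h2
      have h4 : efun p m l ≤ dcost p rest := edc rest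
      refine le_trans ?_ (le_add_left (mul_le_mul' le_rfl
        (ENNReal.le_tsum (f := fun l : ℤ => z ^ bfun p s (k - m * l) * z ^ efun p m l) l)))
      rw [← pow_add, ← pow_add]
      refine pow_le_pow_right_of_le_one' hz ?_
      rw [hcost]
      omega
  -- `∑ z^{e(l)} ≤ P_∅`
  have hP0 : ∑' l : ℤ, z ^ efun p m l ≤ Pz p m z 0 := by
    unfold Pz
    refine ENNReal.tsum_le_tsum fun l => pow_le_pow_right_of_le_one' hz ?_
    have := hle (bfun p 0) (efun p m) l 0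
    rw [b0 0, sub_zero] at this
    simpa using this
  calc Pz p m z s ≤ ∑' k : ℤ, (z ^ bfun p s k +
        z ^ 2 * ∑' l : ℤ, z ^ bfun p s (k - m * l) * z ^ efun p m l) :=
        ENNReal.tsum_le_tsum key
    _ = LF p z s + z ^ 2 * ∑' l : ℤ, ∑' k : ℤ, z ^ bfun p s (k - m * l) * z ^ efun p m l := by
        rw [ENNReal.tsum_add, ENNReal.tsum_mul_left, ENNReal.tsum_comm]
        rfl
    _ = LF p z s + z ^ 2 * ∑' l : ℤ, LF p z s * z ^ efun p m l := by
        congr 2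
        refine tsum_congr fun l => ?_
        rw [ENNReal.tsum_mul_right]
        congr 1
        exact (Equiv.subRight ((m : ℤ) * l)).tsum_eq (fun k : ℤ => z ^ bfun p s k)
    _ = LF p z s * (1 + z ^ 2 * ∑' l : ℤ, z ^ efun p m l) := by
        rw [ENNReal.tsum_mul_left]
        ring
    _ ≤ _ := by gcongr

end Pool.Agent.Lib.MPba1bba.LG
end

section
/-!
# MP_ba1bba_al, LG: SBM, balls are submultiplicative
-/
set_option autoImplicit false

open scoped ENNReal

namespace Pool.Agent.Lib.MPba1bba.LG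

open Pool.Agent.Lib.MPba1bba Pool.Agent.Lib.MPba1bba.AS Pool.Agent.Lib.MPba1bba.LR
  Pool.Agent.Lib.MPba1bba.LC Vec

namespace SBMM

open Classical

/-- the four letters -/
noncomputable def lt4 (p q : ℕ) : Fin 4 → BS p q :=
  ![gA p q, (gA p q)⁻¹, gT p q, (gT p q)⁻¹]

theorem exists_lt4 {p q : ℕ} {x : BS p q} (h : x = gA p q ∨ x = (gA p q)⁻¹ ∨ x = gT p q ∨
    x = (gT p q)⁻¹) : ∃ j, lt4 p q j = x := by
  rcases h with h | h | h | h
  · exact ⟨0, h.symm⟩
  · exact ⟨1, h.symm⟩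
  · exact ⟨2, h.symm⟩
  · exact ⟨3, h.symm⟩

theorem sph_finite (hW : SpecWRD) (p q n : ℕ) : {g : BS p q | wlen p q g = n}.Finite := by
  have h : ∀ g : {g : BS p q // wlen p q g = n}, ∃ f : Fin n → Fin 4,
      (List.ofFn fun i => lt4 p q (f i)).prod = g.1 := by
    intro g
    obtain ⟨l, hl, hl1, hl2⟩ := (hW p q).2.2.2.2.2.2.1 g.1
    rw [g.2] at hl
    subst hl
    have h1 : ∀ i : Fin l.length, ∃ j, lt4 p q j = l.get i := fun i =>
      exists_lt4 (hl1 _ (List.get_mem l i))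
    choose f hf using h1
    refine ⟨f, ?_⟩
    rw [← hl2]
    congr 1
    simp only [hf]
    exact List.ofFn_get l
  choose F hF using h
  have hinj : Function.Injective F := by
    intro g g' hg
    apply Subtype.ext
    rw [← hF g, ← hF g', hg]
  have hfin : Finite {g : BS p q // wlen p q g = n} := Finite.of_injective F hinj
  exact (Set.finite_coe_iff (s := {g : BS p q | wlen p q g = n})).1 hfin

/-- the sphere as a finset -/
noncomputable def Sf (hW : SpecWRD) (p q k : ℕ) : Finset (BS p q) := (sph_finite hW p q k).toFinset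

theorem mem_Sf (hW : SpecWRD) (p q k : ℕ) (g : BS p q) : g ∈ Sf hW p q k ↔ wlen p q g = k := by
  unfold Sf
  rw [Set.Finite.mem_toFinset]
  rfl

theorem card_Sf (hW : SpecWRD) (p q k : ℕ) : (Sf hW p q k).card = sphere p q k := by
  unfold Sf
  rw [← Set.ncard_eq_toFinset_card _ (sph_finite hW p q k)]
  rfl

/-- the ball as a finset -/
noncomputable def Bf (hW : SpecWRD) (p q n : ℕ) : Finset (BS p q) :=
  (Finset.range (n + 1)).biUnion (Sf hW p q)

theorem mem_Bf (hW : SpecWRD) (p q n : ℕ) (g : BS p q) : g ∈ Bf hW p q n ↔ wlen p q g ≤ n := by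
  unfold Bf
  rw [Finset.mem_biUnion]
  constructor
  · rintro ⟨k, hk, hg⟩
    rw [mem_Sf] at hg
    rw [Finset.mem_range] at hk
    omega
  · intro h
    exact ⟨wlen p q g, Finset.mem_range.2 (by omega), (mem_Sf hW p q _ g).2 rfl⟩

theorem card_Bf (hW : SpecWRD) (p q n : ℕ) :
    (Bf hW p q n).card = ∑ k ∈ Finset.range (n + 1), sphere p q k := by
  unfold Bf
  rw [Finset.card_biUnion]
  · exact Finset.sum_congr rfl fun k _ => card_Sf hW p q k
  · intro a _ b _ hab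
    show Disjoint (Sf hW p q a) (Sf hW p q b)
    rw [Finset.disjoint_left]
    intro g h1 h2
    rw [mem_Sf] at h1 h2
    exact hab (h1.symm.trans h2)

theorem sub_mul (hW : SpecWRD) (p q a b : ℕ) : (∑ k ∈ Finset.range (a + b + 1), sphere p q k) ≤
    (∑ k ∈ Finset.range (a + 1), sphere p q k) * ∑ k ∈ Finset.range (b + 1), sphere p q k := by
  rw [← card_Bf hW, ← card_Bf hW, ← card_Bf hW, ← Finset.card_product]
  refine le_trans (Finset.card_le_card ?_) (Finset.card_image_le (f := fun x : BS p q × BS p q => x.1 * x.2))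
  intro g hg
  rw [mem_Bf] at hg
  obtain ⟨l, hl, hl1, hl2⟩ := (hW p q).2.2.2.2.2.2.1 g
  have hle := (hW p q).2.2.2.2.2.2.2.1
  rw [Finset.mem_image]
  refine ⟨((l.take a).prod, (l.drop a).prod), ?_, ?_⟩
  · rw [Finset.mem_product, mem_Bf, mem_Bf]
    constructor
    · refine (hle _ _ ⟨l.take a, rfl, fun x hx => hl1 x (List.mem_of_mem_take hx), rfl⟩).trans ?_
      rw [List.length_take]
      exact min_le_left _ _
    · refine (hle _ _ ⟨l.drop a, rfl, fun x hx => hl1 x (List.mem_of_mem_drop hx), rfl⟩).trans ?_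
      rw [List.length_drop]
      omega
  · show (l.take a).prod * (l.drop a).prod = g
    rw [List.prod_take_mul_prod_drop, hl2]

theorem pow_bound' (hW : SpecWRD) (p q n k : ℕ) : (∑ j ∈ Finset.range (n * (k + 1) + 1), sphere p q j) ≤
    (∑ j ∈ Finset.range (n + 1), sphere p q j) ^ (k + 1) := by
  induction k with
  | zero => rw [zero_add, mul_one, pow_one]
  | succ k ih =>
    rw [Nat.mul_succ, pow_succ]
    exact (sub_mul hW p q (n * (k + 1)) n).trans (Nat.mul_le_mul_right _ ih)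

end SBMM

open SBMM in
theorem specSBM (hW : SpecWRD) : SpecSBM := by
  intro p q
  refine ⟨sub_mul hW p q, ?_⟩
  intro ω hω hlim n
  rcases Nat.eq_zero_or_pos n with h0 | h0
  · subst h0
    rw [pow_zero, zero_add, Finset.sum_range_one]
    have h1 : (1 : BS p q) ∈ Sf hW p q 0 := by
      rw [mem_Sf]
      have := (hW p q).2.2.2.2.2.2.2.1 1 0 (hW p q).1
      omega
    have h2 : 0 < (Sf hW p q 0).card := Finset.card_pos.2 ⟨1, h1⟩
    rw [card_Sf] at h2
    exact_mod_cast h2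
  · set β : ℕ → ℝ := fun n => ∑ k ∈ Finset.range (n + 1), (sphere p q k : ℝ) with hβ
    have hβ0 : ∀ n, 0 ≤ β n := fun n => Finset.sum_nonneg fun _ _ => Nat.cast_nonneg _
    have hpow : ∀ k, β (n * (k + 1)) ≤ β n ^ (k + 1) := by
      intro k
      have h := pow_bound' hW p q n k
      simp only [hβ]
      exact_mod_cast h
    have hsub : Filter.Tendsto (fun k : ℕ => n * (k + 1)) Filter.atTop Filter.atTop := by
      refine Filter.tendsto_atTop_mono (fun k => ?_) Filter.tendsto_id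
      show k ≤ n * (k + 1)
      calc k ≤ 1 * (k + 1) := by omega
        _ ≤ n * (k + 1) := Nat.mul_le_mul_right _ h0
    have hlim2 := hlim.comp hsub
    have hle : ω ≤ β n ^ (1 / (n : ℝ)) := by
      refine le_of_tendsto hlim2 (Filter.Eventually.of_forall fun k => ?_)
      show β (n * (k + 1)) ^ (1 / ((n * (k + 1) : ℕ) : ℝ)) ≤ _
      have hn : (0 : ℝ) < n := by exact_mod_cast h0
      have hk : (0 : ℝ) < (k : ℝ) + 1 := by positivity
      calc β (n * (k + 1)) ^ (1 / ((n * (k + 1) : ℕ) : ℝ))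
          ≤ (β n ^ (k + 1)) ^ (1 / ((n * (k + 1) : ℕ) : ℝ)) :=
            Real.rpow_le_rpow (hβ0 _) (hpow k) (by positivity)
        _ = β n ^ (1 / (n : ℝ)) := by
            rw [← Real.rpow_natCast, ← Real.rpow_mul (hβ0 n)]
            congr 1
            push_cast
            field_simp
    calc ω ^ n ≤ (β n ^ (1 / (n : ℝ))) ^ n := pow_le_pow_left₀ hω hle n
      _ = β n := by
        rw [one_div]
        exact Real.rpow_inv_natCast_pow (hβ0 n) (by omega)

end Pool.Agent.Lib.MPba1bba.LG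
end

section
/-!
# MP_ba1bba_al, LG: UNB, a uniform bound for the sphere sizes
-/
set_option autoImplicit false

open scoped ENNReal

namespace Pool.Agent.Lib.MPba1bba.LG

open Pool.Agent.Lib.MPba1bba Pool.Agent.Lib.MPba1bba.AS Pool.Agent.Lib.MPba1bba.LR
  Pool.Agent.Lib.MPba1bba.LC Vec

namespace UNBM

theorem pr_le {v : Vec} {f g : Fn} {c : ℝ≥0∞} (h : ∀ s, f s ≤ g s * c) : pr v f ≤ pr v g * c := by
  unfold pr
  rw [← ENNReal.tsum_mul_right]
  refine ENNReal.tsum_le_tsum fun s => ?_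
  rw [mul_assoc]
  exact mul_le_mul' le_rfl (h s)

theorem dat_exists (hMain : MainStatement) (hUVX : SpecUVX) (hEVL : SpecEVL) (p m : ℕ) (hp : 2 ≤ p)
    (hm : 2 ≤ m) : ∃ Q E H V U : Ser, Dat p m Q E H V U ∧ ∀ n : ℕ, (sphere p (p * m) n : ℤ) =
      PowerSeries.coeff n (psi p m (1 + E + 2 * H + Q * (1 + E + H) ^ 2)) := by
  obtain ⟨Q, E, H, hsys, -, hcount⟩ := hMain p m hp hm
  have hadd := (hEVL p m).1
  have hveq : ∀ W : Ser, VEq p m Q E W ↔ W = PowerSeries.X * lam p m (serR Q E) +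
      PowerSeries.X * lam p m (serR Q E * rm0 W) := by
    intro W
    unfold VEq
    have e : PowerSeries.X * lam p m ((1 + Q * (1 + E)) * (1 + rm0 W)) =
        PowerSeries.X * lam p m (serR Q E) + PowerSeries.X * lam p m (serR Q E * rm0 W) := by
      rw [← mul_add, ← hadd]
      congr 2
      unfold serR
      ring
    rw [e]
  obtain ⟨V, hV, hVu, -⟩ := hUVX p m (PowerSeries.X * lam p m (serR Q E)) (serR Q E)
  obtain ⟨U, hUe, -, -⟩ := hUVX p m (1 + E) (serR Q E)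
  exact ⟨Q, E, H, V, U, ⟨hp, hm, hsys, (hveq V).2 hV, hUe⟩, hcount⟩

end UNBM

open UNBM in
theorem specUNB (hMain : MainStatement) (hUVX : SpecUVX) (hEVL : SpecEVL) (hEVA : SpecEVA)
    (hPSR : SpecPSR) (hPSE : AS.SpecPSE) (hUPE : LR.SpecUPE) (hMRE : LR.SpecMRE) (hMRM : SpecMRM)
    (hFLB : SpecFLB) (hPZR : SpecPZR) (hPZB : SpecPZB) : SpecUNB := by
  intro p x y hp hy hyx hx hM
  obtain ⟨m1, m2, m3⟩ := hMRM p x y hp hy hyx hx hM
  obtain ⟨hMM, hM0⟩ := hMRE p y x hp hy (by linarith) (by linarith) m3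
  set z : ℝ≥0∞ := ENNReal.ofReal y with hz
  set e : ℝ≥0∞ := ENNReal.ofReal x with he
  have hx0 : 0 < x := hy.trans hyx
  have hz2 : z ≤ 2⁻¹ := by
    rw [hz]
    have h1 : ENNReal.ofReal y ≤ ENNReal.ofReal (1 / 2) := ENNReal.ofReal_le_ofReal (by linarith)
    refine h1.trans (le_of_eq ?_)
    rw [one_div, ENNReal.ofReal_inv_of_pos (by norm_num)]
    norm_num
  have hz1 : z < 1 := by
    rw [hz, ← ENNReal.ofReal_one]
    exact (ENNReal.ofReal_lt_ofReal_iff one_pos).2 (by linarith)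
  have heT : e ≠ ∞ := ENNReal.ofReal_ne_top
  have h1 : z ^ 2 * (1 + e) * MM p z e ≤ e + z ^ 2 := by
    rw [hMM, hz, he, ← ENNReal.ofReal_pow hy.le, ← ENNReal.ofReal_one,
      ← ENNReal.ofReal_add zero_le_one hx0.le, ← ENNReal.ofReal_mul (by positivity),
      ← ENNReal.ofReal_mul (by positivity), ← ENNReal.ofReal_add hx0.le (by positivity)]
    exact ENNReal.ofReal_le_ofReal m2
  have h2 : z * MM p z e < 1 := by
    rw [hMM, hz, ← ENNReal.ofReal_mul hy.le, ← ENNReal.ofReal_one]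
    exact (ENNReal.ofReal_lt_ofReal_iff one_pos).2 m1
  set γ : ℝ≥0∞ := (1 + e) / (1 - z * MM p z e) with hγ
  have hγT : γ ≠ ∞ := by
    rw [hγ]
    refine ENNReal.div_ne_top (ENNReal.add_ne_top.2 ⟨ENNReal.one_ne_top, heT⟩) ?_
    rw [Ne, tsub_eq_zero_iff_le, not_le]
    exact h2
  set K : ℝ≥0∞ := (2 * γ * 2 + γ ^ 2 * MM p z e) * 4 with hK
  have hKT : K ≠ ∞ := by
    rw [hK]
    refine ENNReal.mul_ne_top (ENNReal.add_ne_top.2 ⟨?_, ?_⟩) (by norm_num)
    · exact ENNReal.mul_ne_top (ENNReal.mul_ne_top (by norm_num) hγT) (by norm_num)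
    · rw [hMM]
      exact ENNReal.mul_ne_top (ENNReal.pow_ne_top hγT) ENNReal.ofReal_ne_top
  refine ⟨K.toReal, fun m n hm => ?_⟩
  obtain ⟨Q, E, H, V, U, d, hcount⟩ := dat_exists hMain hUVX hEVL p m hp hm
  obtain ⟨⟨-, nQ, nE, nH, -⟩, -⟩ := hPSR p m Q E H V U d
  obtain ⟨⟨n1, -, -⟩, a2, -⟩ := hEVA
  have hE := hUPE p m Q E H V U d z e hz1 h1
  have hF := hFLB p m Q E H V U d z e hz1 heT hE h2
  rw [← hγ] at hF
  obtain ⟨b1, b2⟩ := hPZB p m z hp hm hz2
  set F : Ser := 1 + E + 2 * H + Q * (1 + E + H) ^ 2 with hFd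
  have nF : Nn F := by
    have n1E := (a2 _ _ n1 nE).1
    have nG := (a2 _ _ n1E nH).1
    have e2 : (2 : Ser) * H = H + H := two_mul H
    rw [hFd, e2, sq]
    exact (a2 _ _ (a2 _ _ n1E (a2 _ _ nH nH).1).1 (a2 _ _ nQ (a2 _ _ nG nG).2.1).2.1).1
  have h3 : evs z (psi p m F) ≤ K := by
    rw [((hPSE p m hp hm).2.2.1 F nF).2 z]
    have hc : (1 : ℝ≥0∞) + z ^ 2 * Pz p m z 0 ≤ 4 := by
      have h4 : z ^ 2 * Pz p m z 0 ≤ 1 * 3 :=
        mul_le_mul' (pow_le_one' hz1.le 2) b1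
      calc (1 : ℝ≥0∞) + z ^ 2 * Pz p m z 0 ≤ 1 + 1 * 3 := add_le_add le_rfl h4
        _ = 4 := by norm_num
    have h5 : pr (ev z F) (Pz p m z) ≤ pr (ev z F) (LF p z) * 4 :=
      pr_le fun s => (hPZR p m z s hp hm hz1.le).trans (mul_le_mul' le_rfl hc)
    refine h5.trans ?_
    rw [hK]
    refine mul_le_mul' (hF.trans ?_) le_rfl
    exact add_le_add (mul_le_mul' le_rfl b2) le_rfl
  have h4 : z ^ n * (sphere p (p * m) n : ℝ≥0∞) ≤ K := by
    refine le_trans ?_ h3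
    have h5 : ((PowerSeries.coeff n (psi p m F)).toNat : ℝ≥0∞) = (sphere p (p * m) n : ℝ≥0∞) := by
      rw [← hcount n, Int.toNat_natCast]
    rw [← h5]
    exact ENNReal.le_tsum (f := fun n => z ^ n * ((PowerSeries.coeff n (psi p m F)).toNat : ℝ≥0∞)) n
  have h5 : ENNReal.ofReal ((sphere p (p * m) n : ℝ) * y ^ n) ≤ K := by
    rw [ENNReal.ofReal_mul (Nat.cast_nonneg _), ENNReal.ofReal_natCast, ENNReal.ofReal_pow hy.le,
      mul_comm]
    exact h4
  exact (ENNReal.ofReal_le_iff_le_toReal hKT).1 h5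

end Pool.Agent.Lib.MPba1bba.LG
end

section
/-!
# MP_ba1bba_al: growth rates and growth series of B(p, p m) for large m
-/
namespace Pool.Agent.Lib.MPba1bba.LG

open Pool.Agent.Lib.MPba1bba Pool.Agent.Lib.MPba1bba.AS Pool.Agent.Lib.MPba1bba.LR
  Pool.Agent.Lib.MPba1bba.LC

theorem mainLG : MainLG := by
  have hBFN := specBFN
  have hSRT := specSRT hBFN
  have hSTR := specSTR hSRT (specCVX hBFN hSRT)
  have hEVA := specEVA
  have hEVL := specEVL
  have hSMC := specSMC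
  have hUVX := specUVX hEVA hEVL
  have hPSR := specPSR hEVL hUVX hSMC
  have hEQZ := specEQZ hEVA hEVL hPSR
  have hEQT := specEQT hEVL hPSR
  have hPSE := specPSE
  have hPZF := specPZF hSMC
  have hPRF := specPRF hBFN hSRT
  have hSPL := specSPL hBFN hSRT
  have hWIN := specWIN hSTR hPRF hSMC
  have hFON := specFON hWIN hSMC hBFN
  have hFTW := specFTW hPRF hSPL
  have hPRM := specPRM hFTW hEVL
  have hUPE := specUPE hEVA hEVL hPSR hEQT hFON hFTW hPRM
  have hWRL := specWRL hPRF specTPM specTSO (specCST hSRT)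
  have hLNF := specLNF hWRL specSWF
  have hMMF := specMMF hLNF
  have hCRP := specCRP
  have hMRE := specMRE hMMF hCRP
  have hEQP := specEQP hCRP
  have hSBM := specSBM specWRD
  have hMRM := specMRM hCRP
  have hGNB := specGNB hEVA hEVL hPSR hEQT hFON hFTW hPRM
  have hFLB := specFLB hEVA hEVL hPSR hEQZ hEQT hFTW hPRM hGNB
  have hPZR := specPZR specIC specEFN hBFN
  have hPZB := specPZB hBFN hPZR hPZF
  have hUNB := specUNB main hUVX hEVL hEVA hPSR hPSE hUPE hMRE hMRM hFLB hPZR hPZB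
  exact specLGF mainLR mainLC hEQP hSBM hUNB

end Pool.Agent.Lib.MPba1bba.LG
end
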