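import Pool.Agent.Lib.MP_ba1bba_al.LC.Spec

/-!
# MP_ba1bba_al: the growth rate of the limit series is the limit of the growth rates: Specs

In a module with hypotheses `SpecX` write `theorem specNAME (hX : SpecX) ... : SpecNAME`. All Specs of
`MP_ba1bba_al/Spec.lean`, `AS/Spec.lean`, `LR/Spec.lean` and `LC/Spec.lean` may be used as hypotheses (they are
proved), also `MainStatement`, `MainLR`, `MainLC`.
-/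

open scoped ENNReal

namespace Pool.Agent.Lib.MPba1bba.LG

open Pool.Agent.Lib.MPba1bba Pool.Agent.Lib.MPba1bba.AS Pool.Agent.Lib.MPba1bba.LR
  Pool.Agent.Lib.MPba1bba.LC Vec

/-- The main theorem. For every `p ≥ 2` there are exactly one `x ∈ (0, 1/2)` with `F_p(x) = 2` and exactly
one `e ∈ ℤ⟦X⟧` with `e + X² = X² (1 + e) M(e)`. The series `S` is algebraic, `σ(n)` is the coefficient of `Xⁿ`
in `S` for all `m ≥ 2` and `2 n ≤ p (m - 1)`, `1/x` is the growth rate of the coefficients of `S`, and the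
growth rate `ω` of `B(p, p m)` satisfies `1/x - C κ^m ≤ ω < 1/x` for all `m ≥ 2`, with `κ < 1`. -/
def MainLG : Prop :=
  ∀ p : ℕ, 2 ≤ p → ∃ (x : ℝ) (e : PowerSeries ℤ),
    (0 < x ∧ x < 1 / 2 ∧ eqF p x = 2 ∧ (∀ y : ℝ, 0 < y → y < 1 / 2 → eqF p y = 2 → y = x) ∧
      (p = 2 → 1 / x = 1 + √3)) ∧
    (e + PowerSeries.X ^ 2 = PowerSeries.X ^ 2 * ((1 + e) * Mz p e) ∧
      ∀ e' : PowerSeries ℤ,
        e' + PowerSeries.X ^ 2 = PowerSeries.X ^ 2 * ((1 + e') * Mz p e') → e' = e) ∧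
    IsAlgebraic (Polynomial ℤ) (Sz p e) ∧
    (∀ m n : ℕ, 2 ≤ m → 2 * n ≤ p * (m - 1) →
      (sphere p (p * m) n : ℤ) = PowerSeries.coeff n (Sz p e)) ∧
    Filter.Tendsto
      (fun n : ℕ => (∑ k ∈ Finset.range (n + 1), ((PowerSeries.coeff k (Sz p e) : ℤ) : ℝ)) ^ (1 / (n : ℝ)))
      Filter.atTop (nhds (1 / x)) ∧
    ∃ C κ : ℝ, 0 < κ ∧ κ < 1 ∧ ∀ m : ℕ, 2 ≤ m → ∃ ω : ℝ,
      Filter.Tendsto
        (fun n : ℕ => (∑ k ∈ Finset.range (n + 1), (sphere p (p * m) k : ℝ)) ^ (1 / (n : ℝ)))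
        Filter.atTop (nhds ω) ∧
      1 / x - C * κ ^ m ≤ ω ∧ ω < 1 / x

/-- **SBM** [150], from WRD. Let `β(n) = ∑_{k ≤ n} σ(k) = #{g : wlen g ≤ n}` (finite: `sphere_le` and its proof in
`AS/GFI.lean`: every `g` of length `n` is a product of a list of `n` of the four letters). (1) For `wlen g ≤ a + b` take a
word of `g` of length `wlen g` (WRD), `g₁` = product of the first `a` letters, `g₂` = product of the rest; `g ↦ (g₁, g₂)` is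
injective (`g = g₁ g₂`) into (ball of radius `a`) × (ball of radius `b`). (2) By (1) `β(n k) ≤ β(n)^k`, so
`β(nk)^{1/(nk)} ≤ β(n)^{1/n}` for `n ≥ 1`; let `k → ∞`: `ω ≤ β(n)^{1/n}`. For `n = 0`: `β(0) ≥ 1` (the identity). -/
def SpecSBM : Prop := ∀ p q : ℕ,
  (∀ a b : ℕ, (∑ k ∈ Finset.range (a + b + 1), sphere p q k) ≤
    (∑ k ∈ Finset.range (a + 1), sphere p q k) * ∑ k ∈ Finset.range (b + 1), sphere p q k) ∧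
  ∀ ω : ℝ, 0 ≤ ω → Filter.Tendsto
    (fun n : ℕ => (∑ k ∈ Finset.range (n + 1), (sphere p q k : ℝ)) ^ (1 / (n : ℝ)))
    Filter.atTop (nhds ω) → ∀ n : ℕ, ω ^ n ≤ ∑ k ∈ Finset.range (n + 1), (sphere p q k : ℝ)

/-- **MRM** [100], from CRP. For fixed `e = x` the function `z ↦ M_z(x)` is nondecreasing on `[0,x]`: `(1+z^p)/(1-z^p)`,
`c_t(z)` (CRP (3)), `u_t = 1/(1 - x c_t(z))` (`x c_t(z) ≤ x c_t(x) < 1`) and the powers of `z` are. So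
`0 < M_y(x) ≤ M_x(x)`, `y M_y(x) < x M_x(x) = 1`; and `(1+x) M_y(x) ≥ 1` [`M_y(x) ≥ 1`: first term], so
`y² ((1+x) M_y(x) - 1) ≤ x² ((1+x) M_x(x) - 1) = x`. -/
def SpecMRM : Prop := ∀ (p : ℕ) (x y : ℝ), 2 ≤ p → 0 < y → y < x → x < 1 / 2 → x * Mr p x x = 1 →
  y * Mr p y x < 1 ∧ y ^ 2 * (1 + x) * Mr p y x ≤ x + y ^ 2 ∧ ∀ t ≤ p - 1, x * cr p t y < 1

/-- **GNB** [120], from EVA, EVL, PSR, EQT, FON, FTW, PRM. Let `G = 1 + E + H`, `G = 1 + E + X lam (R' G)` (`Sys`: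
`H = X lam ((1 + Q(1+E)) (1+E+H))`), `G_N = evt z N G`. By EVA (4) and EVL (4):
`G_{N+1} ≤ 1 + ev z E + z Lv (ev z R' G_N)`. Pair with `N`: `⟨G_{N+1}, N⟩ ≤ 1 + e + z ⟨R G_N, Ld N⟩ ≤ 1 + e + z ⟨R G_N, L⟩
≤ 1 + e + z M_z(e) ⟨G_N, N⟩` (FON on bounded states, PRM (2), `⟨R, L⟩ ≤ M_z(e)` by EQT (4) and PRM (3)). By induction
(`G_0 = 0`) `⟨G_N, N⟩ ≤ (1+e)/(1 - z M)` (`γ = (1+e)/(1-θ)` satisfies `1 + e + θ γ = γ`). Supremum. -/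
def SpecGNB : Prop := ∀ (p m : ℕ) (Q E H V U : Ser), Dat p m Q E H V U →
  ∀ z e : ℝ≥0∞, z < 1 → e ≠ ∞ → pr (ev z E) (NF p z) ≤ e → z * MM p z e < 1 →
    pr (ev z (1 + E + H)) (NF p z) ≤ (1 + e) / (1 - z * MM p z e)

/-- **FLB** [100], from EVA, PSR, EQZ, EQT, FTW, PRM, GNB. `F = 1 + E + 2 H + Q G²`, `1 + E + 2 H ≤ 2 G` (`ev z`), with `γ` as in
GNB: `⟨2 G · 1, L⟩ ≤ 2 γ L(∅)` (PRM (2), `⟨1, L⟩ = L(∅)`), `⟨G G Q, L⟩ ≤ γ² ⟨Q, L⟩` and `ev z Q ≤ ev z R'` (`R' = 1 + Q (1+E)`,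
EQZ (3)), `⟨R', L⟩ ≤ M_z(e)` (EQT (4), PRM (3)). -/
def SpecFLB : Prop := ∀ (p m : ℕ) (Q E H V U : Ser), Dat p m Q E H V U →
  ∀ z e : ℝ≥0∞, z < 1 → e ≠ ∞ → pr (ev z E) (NF p z) ≤ e → z * MM p z e < 1 →
    pr (ev z (1 + E + 2 * H + Q * (1 + E + H) ^ 2)) (LF p z) ≤
      2 * ((1 + e) / (1 - z * MM p z e)) * LF p z 0 + ((1 + e) / (1 - z * MM p z e)) ^ 2 * MM p z e

/-- **PZR** [120], from IC, EFN, BFN. `P(k) = ic (b_s) e k = b_s(i) + e(k - i)` for some `i` (IC), `k - i = dval d` with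
`dcost d = e(k - i)` (EFN (8)). If `d = []` or `[d₀]` then `b_s(k) ≤ b_s(i) + p |k - i| = P(k)` (BFN (5)), so
`z^{P(k)} ≤ z^{b_s(k)}`; else `d = d₀ :: rest`, `l = dval rest`, `k₀ = i + d₀`, `k = k₀ + m l`,
`b_s(k₀) + 2 + e(l) ≤ P(k)` (EFN (9)), so `z^{P(k)} ≤ z^{b_s(k - m l)} z² z^{e(l)}`. In both cases
`z^{P(k)} ≤ z^{b_s(k)} + z² ∑_l z^{b_s(k - m l)} z^{e(l)}`; sum over `k` (shift) and `Pz p m z 0 = ∑_l z^{e(l)}` (`b_∅ □ e = e`; here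
only `≤` is needed: `(b_∅ □ e)(l) ≤ b_∅(0) + e(l)`). -/
def SpecPZR : Prop := ∀ (p m : ℕ) (z : ℝ≥0∞) (s : Multiset ℤ), 2 ≤ p → 2 ≤ m → z ≤ 1 →
  Pz p m z s ≤ LF p z s * (1 + z ^ 2 * Pz p m z 0)

/-- **PZB** [120], from BFN, PZR, PZF. `L(∅) = 1 + 2 ∑_{k ≥ 1} z^{pk} ≤ 1 + 2 ∑_{k≥1} 4^{-k} = 5/3` for `z ≤ 1/2`. For `1 ≤ r < m`
`cmin(∅,r) = min_j p |r + m j|` is `≥ p r` or `≥ p (m - r)`, so `z^{cmin} ≤ z^{pr} + z^{p(m-r)}` and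
`∑_r z^{cmin(∅,r)} ≤ 2 ∑_{i≥1} z^{pi} ≤ 2/3`; so `z² (1 + 2 · 2/3) ≤ 7/12 < 1` and `Pz p m z 0 < ∞` (PZF). PZR at `s = ∅`:
`P ≤ L(∅) + z² L(∅) P ≤ 5/3 + (5/12) P`, so `P ≤ 20/7 ≤ 3`. -/
def SpecPZB : Prop := ∀ (p m : ℕ) (z : ℝ≥0∞), 2 ≤ p → 2 ≤ m → z ≤ 2⁻¹ →
  Pz p m z 0 ≤ 3 ∧ LF p z 0 ≤ 2

/-- **UNB** [150], from MainStatement, UVX, EVL, EVA, PSR, PSE, UPE, MRE, MRM, FLB, PZR, PZB. Let `Y = ofReal y`, `X = ofReal x`.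
For every `m ≥ 2` there is a `Dat` with `sphere p (p m) n = coeff n (psi F)`, `F = 1 + E + 2 H + Q (1+E+H)²` (see `LC/CFI.lean`).
By MRM and MRE (`0 < y`, `e = x`) `Y² (1+X) MM Y X ≤ X + Y²`, so `⟨ev Y E, N⟩ ≤ X` (UPE), and `Y MM Y X < 1`. So by FLB, PZR, PZB
`sphere p (p m) n * y^n ≤ evs Y (psi F) = ⟨ev Y F, Pz⟩ ≤ (1 + 3) ⟨ev Y F, L⟩ ≤ K`, a finite constant which does not depend on
`m`, `n`. (`F` has nonnegative coefficients: PSR, EVA; `PSE` (3).) -/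
def SpecUNB : Prop := ∀ (p : ℕ) (x y : ℝ), 2 ≤ p → 0 < y → y < x → x < 1 / 2 → x * Mr p x x = 1 →
  ∃ K : ℝ, ∀ m n : ℕ, 2 ≤ m → (sphere p (p * m) n : ℝ) * y ^ n ≤ K

/-- **LGF** [150], from MainLR, MainLC, EQP, SBM, UNB. Let `b(n) = ∑_{k ≤ n} coeff k S`; for `m > n + 1` (so `2 k ≤ p (m - 1)` for
`k ≤ n`) `b(n) = ∑_{k ≤ n} σ_{p,pm}(k)`. (a) SBM with `ω = ω_m ≥ 1/x - C κ^m` (`> 0` for large `m`): `ω_m^n ≤ b(n)`; let `m → ∞`: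
`(1/x)^n ≤ b(n)`. (b) For `0 < y < x` by UNB `coeff k S ≤ K y^{-k}`, `K > 0`, so `b(n) ≤ (n+1) K y^{-n}` (`y < 1`). So
`1/x ≤ b(n)^{1/n} ≤ ((n+1) K)^{1/n} / y` for `n ≥ 1`, `((n+1) K)^{1/n} → 1`, and `y → x`. -/
def SpecLGF : Prop := MainLG

end Pool.Agent.Lib.MPba1bba.LG
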